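import Pool.Agent.Q7.LS.Stm

/-!
# Project LS of helper7: job MEANN (helper31), adapted from the last part of LAWX of helper150 and SHAREM of helper193
-/

set_option autoImplicit false

namespace Pool.Agent.Q31.LS

open NumberField IsDedekindDomain Filter Topology Finset
open Pool.Agent.Q283.LQ (Sm Box Nest nS)
open Pool.Agent.Q7.LK
open Pool.Agent.Q7.LS (LocN ManyX Ens S_EEN S_SH2N S_MEANN)

theorem nestM : ∀ (k : ℕ) (P Q : (Fin k → ℕ) → Prop), (∀ X, P X → Q X) → Nest k P → Nest k Q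
  | 0, _, _, h, hP => h _ hP
  | k + 1, P, Q, h, hP => nestM k _ _ (fun X hX => by
      filter_upwards [hX] with x hx using h _ hx) hP

theorem fnn {α : Type} [Fintype α] (p : α → Prop) [DecidablePred p] :
    (univ.filter p).card = {a | p a}.ncard := by
  rw [← Set.ncard_coe_finset]
  apply congrArg
  ext a
  simp

open Classical in
theorem meann0 (hBASE : S_BASE) (hLOC : S_LOC) (hCOUNT : S_COUNT) (hTRF : Pool.Agent.Q283.EN.S_TRF)
    (hEEN : S_EEN) (hSH2N : S_SH2N) : S_MEANN := by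
  intro p _ hp2 F _ _ ζ hζ
  have hp : p.Prime := Fact.out
  have hp1 : (1 : ℝ) < p := by exact_mod_cast hp.one_lt
  have hp0 : (0 : ℝ) < p := by linarith
  obtain ⟨y0, hy0⟩ := hBASE p hp2 F ζ hζ
  refine ⟨y0, fun y hy D0 hD0 A c hA ε hε => ?_⟩
  obtain ⟨f, u, r, π, g, hb, hf⟩ := hy0 y hy
  have hfin := (hLOC p hp2 F ζ hζ y hb.two).1
  obtain ⟨⟨ψ, w⟩, hcls, -⟩ := hb.cls D0 hD0
  have hcls' : Nn p y (D0 * mon r ψ * mon u w) := hcls
  obtain ⟨E, hE1, hE2⟩ := hEEN p F ζ hζ y f u r π g hb hf hfin D0 A c hD0 hA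
  obtain ⟨μ, hμ⟩ : ∃ μ : ℝ, μ = (p : ℝ) ^ (∑ᶠ v, c v) * (1 / (p : ℝ)) ^ InfinitePlace.nrComplexPlaces F := ⟨_, rfl⟩
  rw [← hμ] at hE2
  rw [← hμ]
  -- the choice of k0
  have hlim : Tendsto (fun k : ℕ => (p : ℝ) ^ f * p / (p : ℝ) ^ k) atTop (𝓝 0) := by
    have h1 := tendsto_pow_atTop_nhds_zero_of_lt_one (by positivity : (0 : ℝ) ≤ 1 / (p : ℝ))
      (by rw [div_lt_one hp0]; exact hp1 : (1 : ℝ) / p < 1)
    have h2 := h1.const_mul ((p : ℝ) ^ f * p)
    rw [mul_zero] at h2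
    refine h2.congr fun k => ?_
    rw [one_div, inv_pow, ← div_eq_mul_inv]
  obtain ⟨k1, hk1⟩ := eventually_atTop.1 (hlim.eventually (gt_mem_nhds (half_pos hε)))
  refine ⟨max k1 1, fun k hk z hz => ?_⟩
  have hk1' : k1 ≤ k := (le_max_left _ _).trans hk
  have hk2 : 1 ≤ k := (le_max_right _ _).trans hk
  have hδ := hk1 k hk1'
  -- the number of the solutions of a table
  obtain ⟨sol, hsol⟩ : ∃ sol : Tab p f k → ℕ, ∀ τ, sol τ =
      ((univ : Finset ((Fin f → ZMod p) × (Fin k → ZMod p))).filter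
        (fun x => IsSol g w z E τ x)).card := ⟨_, fun τ => rfl⟩
  obtain ⟨M, hM⟩ : ∃ M : ℕ, M = Fintype.card ((Fin f → ZMod p) × (Fin k → ZMod p)) := ⟨_, rfl⟩
  have hsolM : ∀ τ, sol τ ≤ M := by
    intro τ
    rw [hsol, hM]
    exact (Finset.card_filter_le _ _).trans (le_of_eq Finset.card_univ)
  obtain ⟨e2, he2⟩ : ∃ e2 : ℝ, e2 = ε / 2 / ((M : ℝ) + 1) ^ 2 := ⟨_, rfl⟩
  have he2pos : 0 < e2 := by rw [he2]; positivity
  have he2M : e2 * ((M : ℝ) + 1) ^ 2 = ε / 2 := by rw [he2]; field_simp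
  refine nestM k _ _ (fun X hX => ?_) (hTRF p F ζ hζ y f u r π g hb D0 ψ w hD0 hcls' k z hk2 hz e2 he2pos)
  obtain ⟨hBfin, hpos, htab, hP⟩ := hX
  refine ⟨hBfin, hpos, fun B N hBE hBN => ?_⟩
  have hEns : Ens p y D0 z X = {q ∈ (Box y X : Set (Fin k → HeightOneSpectrum (𝓞 F))) |
      ∃ D, Fits p y D0 z q D} := rfl
  rw [hEns] at hBE ⊢
  obtain ⟨Q, hQ⟩ : ∃ Q : ℝ, Q = ({q ∈ (Box y X : Set (Fin k → HeightOneSpectrum (𝓞 F))) |
    ∃ D, Fits p y D0 z q D}.ncard : ℝ) := ⟨_, rfl⟩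
  obtain ⟨T, hT⟩ : ∃ T : ℝ, T = ((univ.filter (fun τ : Tab p f k => ∑ j, z j • τ.1 j = ψ)).card : ℝ) :=
    ⟨_, rfl⟩
  rw [← hQ] at hpos hP ⊢
  rw [← hT] at hP
  have hTpos : 0 < T := by
    rw [hT, Nat.cast_pos, Finset.card_pos]
    refine ⟨(fun j => if j = ⟨0, hk2⟩ then (z j)⁻¹ • ψ else 0, 0), ?_⟩
    rw [mem_filter]
    refine ⟨mem_univ _, ?_⟩
    simp only
    rw [Finset.sum_eq_single (⟨0, hk2⟩ : Fin k)]
    · rw [if_pos rfl, smul_smul, mul_inv_cancel₀ (hz _), one_smul]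
    · intro j _ hj
      rw [if_neg hj, smul_zero]
    · intro h
      exact absurd (mem_univ _) h
  -- the mean over the tables
  have hcount : (∑ τ ∈ univ.filter (fun τ : Tab p f k => ∑ j, z j • τ.1 j = ψ), (sol τ : ℝ)) ≤
      (μ + ε / 2) * T := by
    have h1 := hCOUNT p f k hk2 g w ψ z hz E
    rw [← hT] at h1
    simp only [hsol]
    refine h1.trans ?_
    refine mul_le_mul_of_nonneg_right ?_ hTpos.le
    linarith
  -- the tables of the elements of B
  have hval : ∀ q ∈ B, ∃ τ : Tab p f k, Tb ζ u π τ q ∧ N q ≤ sol τ := by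
    intro q hq
    obtain ⟨D, hD, hN⟩ := hBN q hq
    have hqB := (hBE q hq).1
    obtain ⟨τ, hτ⟩ := htab q hqB
    refine ⟨τ, hτ, ?_⟩
    rw [hsol]
    exact hSH2N p F ζ hζ y f u r π g hb D0 A c hA ψ w hD0 hcls' k z q hk2 hz hqB.1
      (fun i => (hqB.2 i).1) τ hτ E hE1 D hD (N q) hN
  have : Nonempty (Tab p f k) := ⟨(fun _ => 0, 0)⟩
  choose! τf hτf hNf using hval
  have h1 : ∑ q ∈ B, (N q : ℝ) ≤
      ∑ m ∈ range (M + 1), (m : ℝ) * ((B.filter (fun q => sol (τf q) = m)).card : ℝ) := by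
    calc ∑ q ∈ B, (N q : ℝ) ≤ ∑ q ∈ B, (sol (τf q) : ℝ) :=
          Finset.sum_le_sum fun q hq => by exact_mod_cast hNf q hq
      _ = _ := by
        rw [← Finset.sum_fiberwise_of_maps_to (s := B) (t := range (M + 1)) (g := fun q => sol (τf q))]
        · apply Finset.sum_congr rfl
          intro m _
          rw [Finset.sum_congr rfl (g := fun _ => (m : ℝ)) (fun q hq => by rw [(mem_filter.1 hq).2]),
            sum_const, nsmul_eq_mul, mul_comm]
        · intro q hq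
          rw [mem_range]
          have := hsolM (τf q)
          omega
  have h2 : ∀ m : ℕ, ((B.filter (fun q => sol (τf q) = m)).card : ℝ) * T ≤
      ((univ.filter (fun τ : Tab p f k => ∑ j, z j • τ.1 j = ψ ∧ sol τ = m)).card : ℝ) * Q +
        e2 * Q * T := by
    intro m
    have h3 := hP (fun τ => sol τ = m)
    have h4 : ((B.filter (fun q => sol (τf q) = m)).card : ℝ) ≤
        ({q ∈ (Box y X : Set (Fin k → HeightOneSpectrum (𝓞 F))) | (∃ D, Fits p y D0 z q D) ∧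
          ∃ τ, Tb ζ u π τ q ∧ sol τ = m}.ncard : ℝ) := by
      rw [← Set.ncard_coe_finset]
      refine Nat.cast_le.2 (Set.ncard_le_ncard ?_ (hBfin.subset (fun q hq => hq.1)))
      intro q hq
      rw [mem_coe, mem_filter] at hq
      exact ⟨(hBE q hq.1).1, (hBE q hq.1).2, τf q, hτf q hq.1, hq.2⟩
    rw [fnn] at h3 ⊢
    have h5 := (abs_le.1 h3).2
    have h6 := mul_le_mul_of_nonneg_right h4 hTpos.le
    refine h6.trans ?_
    linarith
  have h3 : ∑ m ∈ range (M + 1), (m : ℝ) *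
      ((univ.filter (fun τ : Tab p f k => ∑ j, z j • τ.1 j = ψ ∧ sol τ = m)).card : ℝ) =
      ∑ τ ∈ univ.filter (fun τ : Tab p f k => ∑ j, z j • τ.1 j = ψ), (sol τ : ℝ) := by
    rw [← Finset.sum_fiberwise_of_maps_to (s := univ.filter (fun τ : Tab p f k => ∑ j, z j • τ.1 j = ψ))
      (t := range (M + 1)) (g := fun τ => sol τ)]
    · apply Finset.sum_congr rfl
      intro m _
      rw [Finset.sum_congr rfl (g := fun _ => (m : ℝ)) (fun τ hτ => by rw [(mem_filter.1 hτ).2]),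
        sum_const, nsmul_eq_mul, mul_comm, Finset.filter_filter]
    · intro τ _
      rw [mem_range]
      have := hsolM τ
      omega
  have h4 : (∑ m ∈ range (M + 1), (m : ℝ)) ≤ ((M : ℝ) + 1) ^ 2 := by
    have : ∑ m ∈ range (M + 1), (m : ℝ) ≤ ∑ m ∈ range (M + 1), ((M : ℝ) + 1) := by
      apply Finset.sum_le_sum
      intro m hm
      have : (m : ℝ) ≤ (M : ℝ) := by
        have := mem_range.1 hm
        exact_mod_cast (by omega : m ≤ M)
      linarith
    refine this.trans (le_of_eq ?_)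
    rw [sum_const, card_range, nsmul_eq_mul]
    push_cast
    ring
  have h5 : (∑ q ∈ B, (N q : ℝ)) * T ≤ ((μ + ε) * Q) * T := by
    calc (∑ q ∈ B, (N q : ℝ)) * T
        ≤ (∑ m ∈ range (M + 1), (m : ℝ) * ((B.filter (fun q => sol (τf q) = m)).card : ℝ)) * T :=
          mul_le_mul_of_nonneg_right h1 hTpos.le
      _ = ∑ m ∈ range (M + 1), (m : ℝ) * ((B.filter (fun q => sol (τf q) = m)).card : ℝ) * T := by
          rw [sum_mul]
      _ ≤ ∑ m ∈ range (M + 1), ((m : ℝ) * ((univ.filter (fun τ : Tab p f k => ∑ j, z j • τ.1 j = ψ ∧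
          sol τ = m)).card : ℝ) * Q + e2 * Q * T * (m : ℝ)) := by
          apply Finset.sum_le_sum
          intro m _
          have := mul_le_mul_of_nonneg_left (h2 m) (Nat.cast_nonneg m : (0 : ℝ) ≤ (m : ℝ))
          linarith
      _ = (∑ τ ∈ univ.filter (fun τ : Tab p f k => ∑ j, z j • τ.1 j = ψ),
            (sol τ : ℝ)) * Q + e2 * Q * T * ∑ m ∈ range (M + 1), (m : ℝ) := by
          rw [sum_add_distrib, ← sum_mul, h3, ← mul_sum]
      _ ≤ ((μ + ε / 2) * T) * Q + e2 * Q * T * ((M : ℝ) + 1) ^ 2 := by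
          have h6 := mul_le_mul_of_nonneg_right hcount hpos.le
          have h7 := mul_le_mul_of_nonneg_left h4 (by positivity : 0 ≤ e2 * Q * T)
          linarith
      _ = ((μ + ε) * Q) * T := by
          have : e2 * Q * T * ((M : ℝ) + 1) ^ 2 = (e2 * ((M : ℝ) + 1) ^ 2) * (Q * T) := by ring
          rw [this, he2M]
          ring
  exact le_of_mul_le_mul_right h5 hTpos

/-- JOB MEANN -/
theorem meann (hEEN : S_EEN) (hSH2N : S_SH2N) (hBASE : S_BASE) (hLOC : S_LOC) (hCOUNT : S_COUNT)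
    (hTRF : Pool.Agent.Q283.EN.S_TRF) : S_MEANN :=
  meann0 hBASE hLOC hCOUNT hTRF hEEN hSH2N

end Pool.Agent.Q31.LS
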